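import Pool.Agent.H79.PRK.S1
import Pool.Agent.H70.HYP.NMU
import Pool.Agent.H74.HYP.UNR

/-!
# PRK, module NRMK: the square class of the norm
-/

set_option autoImplicit false

namespace Pool.PRK

open Polynomial Matrix Pool.HYP Pool.TOW Pool.AVS Pool.T1 IsDedekindDomain

namespace Nrm91

section ring

variable {R : Type} [CommRing R]

theorem prod_in (P : Ideal R) {ι : Type} (s : Finset ι) (b : ι → R) (hb : ∀ i ∈ s, b i ∈ P) :
    ∏ i ∈ s, b i ∈ P ^ s.card := by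
  classical
  induction s using Finset.induction_on with
  | empty => simp
  | insert j s hj ih =>
    rw [Finset.prod_insert hj, Finset.card_insert_of_notMem hj, pow_succ']
    exact Ideal.mul_mem_mul (hb j (Finset.mem_insert_self _ _))
      (ih fun i hi => hb i (Finset.mem_insert_of_mem hi))

theorem prod_sub (P : Ideal R) {ι : Type} (s : Finset ι) (a b : ι → R) (ha : ∀ i ∈ s, a i ∈ P)
    (hb : ∀ i ∈ s, b i ∈ P) (hab : ∀ i ∈ s, a i - b i ∈ P ^ 2) :
    ∏ i ∈ s, a i - ∏ i ∈ s, b i ∈ P ^ (s.card + 1) := by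
  classical
  induction s using Finset.induction_on with
  | empty => simp
  | insert j s hj ih =>
    have h1 := ih (fun i hi => ha i (Finset.mem_insert_of_mem hi))
      (fun i hi => hb i (Finset.mem_insert_of_mem hi))
      (fun i hi => hab i (Finset.mem_insert_of_mem hi))
    have h2 := prod_in P s b (fun i hi => hb i (Finset.mem_insert_of_mem hi))
    have h3 := ha j (Finset.mem_insert_self _ _)
    have h4 := hab j (Finset.mem_insert_self _ _)
    rw [Finset.prod_insert hj, Finset.prod_insert hj, Finset.card_insert_of_notMem hj]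
    have e1 : a j * ∏ i ∈ s, a i - b j * ∏ i ∈ s, b i =
        (∏ i ∈ s, a i - ∏ i ∈ s, b i) * a j + (∏ i ∈ s, b i) * (a j - b j) := by ring
    rw [e1]
    refine add_mem ?_ ?_
    · rw [pow_succ]
      exact Ideal.mul_mem_mul h1 h3
    · have h5 := Ideal.mul_mem_mul h2 h4
      rw [← pow_add] at h5
      exact h5

theorem det_sub (P : Ideal R) (n : ℕ) (M N : Matrix (Fin n) (Fin n) R) (hM : ∀ i j, M i j ∈ P)
    (hN : ∀ i j, N i j ∈ P) (hMN : ∀ i j, M i j - N i j ∈ P ^ 2) :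
    M.det - N.det ∈ P ^ (n + 1) := by
  rw [Matrix.det_apply, Matrix.det_apply, ← Finset.sum_sub_distrib]
  refine Ideal.sum_mem _ fun σ _ => ?_
  rw [← smul_sub]
  have h1 := prod_sub P Finset.univ (fun i => M (σ i) i) (fun i => N (σ i) i) (fun i _ => hM _ _)
    (fun i _ => hN _ _) (fun i _ => hMN _ _)
  rw [Finset.card_univ, Fintype.card_fin] at h1
  rcases Int.units_eq_one_or (Equiv.Perm.sign σ) with h | h
  · rw [h, one_smul]; exact h1
  · rw [h, Units.neg_smul, one_smul]; exact neg_mem h1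

theorem zer_map (I : Ideal R) (q : R[X]) : Zer I q ↔ q.map (Ideal.Quotient.mk I) = 0 := by
  constructor
  · intro h
    ext i
    rw [coeff_map, coeff_zero, Ideal.Quotient.eq_zero_iff_mem]
    exact h i
  · intro h i
    rw [← Ideal.Quotient.eq_zero_iff_mem, ← coeff_map, h, coeff_zero]

theorem zer_mod (I : Ideal R) (q f : R[X]) (hf : f.Monic) (h : Zer I q) : Zer I (q %ₘ f) := by
  rw [zer_map] at h ⊢
  rw [map_modByMonic _ hf, h, zero_modByMonic]

theorem zer_mul (I : Ideal R) (q r : R[X]) (h : Zer I q) : Zer I (q * r) := by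
  rw [zer_map] at h ⊢
  rw [Polynomial.map_mul, h, zero_mul]

/-- The norm of a polynomial congruent to `ϖ` modulo `P²`. -/
theorem norm_pi (P : Ideal R) (n : ℕ) (f h : R[X]) (ϖ : R) (hf : f.Monic) (hn : f.natDegree = n)
    (hϖ : ϖ ∈ P) (h2 : Zer (P ^ 2) (h - C ϖ)) :
    Algebra.norm R (AdjoinRoot.mk f h) - ϖ ^ n ∈ P ^ (n + 1) := by
  have hC : Zer P (C ϖ : R[X]) := by
    intro i
    rw [coeff_C]
    split_ifs
    · exact hϖ
    · exact zero_mem _
  have hh : Zer P h := by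
    intro i
    have h3 := add_mem (Ideal.pow_le_self two_ne_zero (h2 i)) (hC i)
    rwa [← coeff_add, sub_add_cancel] at h3
  have e1 : ϖ ^ n = Algebra.norm R (AdjoinRoot.mk f (C ϖ)) := by
    rw [NMU.norm_C f ϖ hf, hn]
  rw [e1, NMU.norm_eq f h hf, NMU.norm_eq f (C ϖ) hf, hn]
  refine det_sub P n _ _ ?_ ?_ ?_
  · intro i j
    exact zer_mod P _ f hf (zer_mul P _ _ hh) i
  · intro i j
    exact zer_mod P _ f hf (zer_mul P _ _ hC) i
  · intro i j
    simp only [NMU.mm, Matrix.of_apply]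
    rw [← coeff_sub, ← sub_modByMonic, ← sub_mul]
    exact zer_mod (P ^ 2) _ f hf (zer_mul (P ^ 2) _ _ h2) i

/-- The norm depends only on `f` modulo the ideal. -/
theorem norm_congr (I : Ideal R) (hI : I ≠ ⊤) (f f' h : R[X]) (hf : f.Monic) (hf' : f'.Monic)
    (hff : Zer I (f - f')) :
    Algebra.norm R (AdjoinRoot.mk f h) - Algebra.norm R (AdjoinRoot.mk f' h) ∈ I := by
  have : Nontrivial (R ⧸ I) := Ideal.Quotient.nontrivial_iff.2 hI
  have e1 := NMU.norm_map (Ideal.Quotient.mk I) f h hf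
  have e2 := NMU.norm_map (Ideal.Quotient.mk I) f' h hf'
  have e3 : f.map (Ideal.Quotient.mk I) = f'.map (Ideal.Quotient.mk I) := by
    have := (zer_map I _).1 hff
    rwa [Polynomial.map_sub, sub_eq_zero] at this
  rw [← Ideal.Quotient.eq_zero_iff_mem, map_sub, sub_eq_zero, ← e1, ← e2]
  rw [e3]

end ring

section dom

variable {R : Type} [CommRing R] [IsDomain R]

/-- Multiplicativity. -/
theorem norm_fac (c : R) (γ h : R[X]) (hγ : γ.Monic) :
    Algebra.norm R (AdjoinRoot.mk ((X - C c) * γ) h) =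
      h.eval c * Algebra.norm R (AdjoinRoot.mk γ h) := by
  apply IsFractionRing.injective R (FractionRing R)
  rw [map_mul, ← NMU.norm_map _ _ _ ((monic_X_sub_C c).mul hγ), ← NMU.norm_map _ _ _ hγ,
    Polynomial.map_mul, NMU.mul_all _ _ _ ((monic_X_sub_C c).map _) (hγ.map _), Polynomial.map_sub,
    map_X, map_C, nmu.2.1, eval_map, eval₂_at_apply]

end dom

section ded

variable {R : Type} [CommRing R] [IsDedekindDomain R]

theorem sqR {K : Type} [Field K] [Algebra R K] [IsFractionRing R K] {a : R}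
    (h : IsSquare (algebraMap R K a)) : IsSquare a := by
  obtain ⟨r, hr⟩ := h
  have h1 : IsIntegral R (r ^ 2) := by
    rw [pow_two, ← hr]
    exact isIntegral_algebraMap
  obtain ⟨y, hy⟩ := IsIntegrallyClosed.exists_algebraMap_eq_of_isIntegral_pow two_pos h1
  refine ⟨y, IsFractionRing.injective R K ?_⟩
  rw [map_mul, hy, hr]

/-- Division by powers of a uniformizer. -/
theorem div_pi (P : HeightOneSpectrum R) {ϖ : R} (h1 : ϖ ∈ P.asIdeal) (h2 : ϖ ∉ P.asIdeal ^ 2)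
    (j : ℕ) : ∃ m : R, m ∉ P.asIdeal ∧ ∀ y ∈ P.asIdeal ^ (j + 1), ∃ z ∈ P.asIdeal,
      ϖ ^ j * z = m * y := by
  have hP := P.isPrime
  obtain ⟨J, hJ⟩ : P.asIdeal ∣ Ideal.span {ϖ} := by
    rw [Ideal.dvd_span_singleton]; exact h1
  have hJP : ¬ J ≤ P.asIdeal := by
    intro h
    apply h2
    have h3 : ϖ ∈ P.asIdeal * J := by
      rw [← hJ]; exact Ideal.mem_span_singleton_self ϖ
    rw [pow_two]
    exact Ideal.mul_mono le_rfl h h3
  have hJj : ¬ J ^ j ≤ P.asIdeal := fun h => hJP (hP.le_of_pow_le h)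
  obtain ⟨m, hm1, hm2⟩ := SetLike.not_le_iff_exists.1 hJj
  refine ⟨m, hm2, fun y hy => ?_⟩
  have h3 : m * y ∈ J ^ j * P.asIdeal ^ (j + 1) := Ideal.mul_mem_mul hm1 hy
  have e1 : J ^ j * P.asIdeal ^ (j + 1) = Ideal.span {ϖ ^ j} * P.asIdeal := by
    rw [← Ideal.span_singleton_pow, hJ]
    ring
  rw [e1, Ideal.mem_span_singleton_mul] at h3
  exact h3

/-- The norm of `γ² + ϖ`. -/
theorem norm_h (hHENK : HENKStmt) (P : HeightOneSpectrum R) (c ϖ : R) (γ f : R[X]) (g : ℕ)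
    (hg : 1 ≤ g) (hf : f.Monic) (_hfd : f.natDegree = 2 * g + 1) (hϖ : ϖ ∈ P.asIdeal)
    (hγ : OkP (2 * g) P.asIdeal γ) (hz : Zer P.asIdeal (f - (X - C c) * γ)) :
    Algebra.norm R (AdjoinRoot.mk f (γ ^ 2 + C ϖ)) - γ.eval c ^ 2 * ϖ ^ (2 * g) ∈
      P.asIdeal ^ (2 * g + 1) := by
  obtain ⟨c', γ', h1, h2, h3, h4, h5⟩ := hHENK R P c γ f g hg hf hγ hz (2 * g + 1)
  have hI : P.asIdeal ^ (2 * g + 1) ≠ ⊤ := by
    intro h
    have h6 : P.asIdeal ^ (2 * g + 1) ≤ P.asIdeal := Ideal.pow_le_self (by omega)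
    rw [h] at h6
    exact P.isPrime.ne_top (top_le_iff.1 h6)
  have e1 := norm_congr (P.asIdeal ^ (2 * g + 1)) hI f ((X - C c') * γ') (γ ^ 2 + C ϖ) hf
    ((monic_X_sub_C c').mul h1) h5
  rw [norm_fac c' γ' _ h1] at e1
  have e2 : AdjoinRoot.mk γ' (γ ^ 2 + C ϖ) = AdjoinRoot.mk γ' ((γ' - γ) ^ 2 + C ϖ) := by
    rw [AdjoinRoot.mk_eq_mk]
    exact ⟨2 * γ - γ', by ring⟩
  have e3 : Zer (P.asIdeal ^ 2) (((γ' - γ) ^ 2 + C ϖ) - C ϖ) := by
    have e4 : ((γ' - γ) ^ 2 + C ϖ) - C ϖ = (γ' - γ) * (γ' - γ) := by ring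
    intro i
    rw [e4, coeff_mul]
    refine Ideal.sum_mem _ fun x _ => ?_
    rw [pow_two]
    exact Ideal.mul_mem_mul (h4 _) (h4 _)
  have e5 := norm_pi P.asIdeal (2 * g) γ' _ ϖ h1 h2 hϖ e3
  rw [e2] at e1
  have e6 : (γ ^ 2 + C ϖ).eval c' - γ.eval c ^ 2 ∈ P.asIdeal := by
    have e7 : γ.eval c' - γ.eval c ∈ P.asIdeal := by
      obtain ⟨k, hk⟩ := sub_dvd_eval_sub c' c γ
      rw [hk]
      exact Ideal.mul_mem_right _ _ h3
    have e8 : (γ ^ 2 + C ϖ).eval c' - γ.eval c ^ 2 =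
        (γ.eval c' + γ.eval c) * (γ.eval c' - γ.eval c) + ϖ := by
      simp only [eval_add, eval_pow, eval_C]; ring
    rw [e8]
    exact add_mem (Ideal.mul_mem_left _ _ e7) hϖ
  obtain ⟨N, hN⟩ : ∃ N, N = Algebra.norm R (AdjoinRoot.mk γ' ((γ' - γ) ^ 2 + C ϖ)) := ⟨_, rfl⟩
  obtain ⟨e, he⟩ : ∃ e, e = (γ ^ 2 + C ϖ).eval c' := ⟨_, rfl⟩
  rw [← hN] at e1 e5
  rw [← he] at e1 e6
  have e9 : (e - γ.eval c ^ 2) * ϖ ^ (2 * g) ∈ P.asIdeal ^ (2 * g + 1) := by
    rw [pow_succ']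
    exact Ideal.mul_mem_mul e6 (Ideal.pow_mem_pow hϖ _)
  have e10 : Algebra.norm R (AdjoinRoot.mk f (γ ^ 2 + C ϖ)) - γ.eval c ^ 2 * ϖ ^ (2 * g) =
      (Algebra.norm R (AdjoinRoot.mk f (γ ^ 2 + C ϖ)) - e * N) + e * (N - ϖ ^ (2 * g)) +
      (e - γ.eval c ^ 2) * ϖ ^ (2 * g) := by ring
  rw [e10]
  exact add_mem (add_mem e1 (Ideal.mul_mem_left _ _ e5)) e9

/-- The value of `γ` at `c` is not in `P`. -/
theorem gam_ne (P : HeightOneSpectrum R) (c : R) (γ : R[X]) (g : ℕ) (hg : 1 ≤ g)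
    (hγ : OkP (2 * g) P.asIdeal γ) : γ.eval c ∉ P.asIdeal := by
  have hPm : P.asIdeal.IsMaximal := P.isMaximal
  letI := Ideal.Quotient.field P.asIdeal
  intro h
  have h1 : (md P.asIdeal γ).IsRoot (Ideal.Quotient.mk P.asIdeal c) := by
    rw [IsRoot.def, eval_map, eval₂_at_apply, Ideal.Quotient.eq_zero_iff_mem]
    exact h
  have h5 := degree_eq_one_of_irreducible_of_root hγ.2.2 h1
  have h6 : (md P.asIdeal γ).natDegree = 1 := natDegree_eq_of_degree_eq_some (by rw [h5]; rfl)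
  rw [hγ.1.natDegree_map, hγ.2.1] at h6
  omega

/-- The norm of `p` is a square modulo `P`. -/
theorem key (hHENK : HENKStmt) {K : Type} [Field K] [Algebra R K] [IsFractionRing R K]
    (P : HeightOneSpectrum R) (ϖ c : R) (γ f : R[X]) (g : ℕ) (α : K[X]) (hg : 1 ≤ g)
    (hf : f.Monic) (hfd : f.natDegree = 2 * g + 1) (hϖ : ϖ ∈ P.asIdeal)
    (hϖ2 : ϖ ∉ P.asIdeal ^ 2) (hγ : OkP (2 * g) P.asIdeal γ)
    (hz : Zer P.asIdeal (f - (X - C c) * γ)) (hN : NSq (fk K f) α) (x : Ty) (s : K[X]) (p : R[X])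
    (hd : fk K f ∣ α * s ^ 2 - fk K ((γ ^ 2 + C ϖ) ^ x.1.val * p)) :
    IsSquare (Ideal.Quotient.mk P.asIdeal (Algebra.norm R (AdjoinRoot.mk f p))) := by
  have hPm : P.asIdeal.IsMaximal := P.isMaximal
  letI := Ideal.Quotient.field P.asIdeal
  obtain ⟨A, hA⟩ : ∃ A, A = Algebra.norm R (AdjoinRoot.mk f (γ ^ 2 + C ϖ)) := ⟨_, rfl⟩
  obtain ⟨B, hB⟩ : ∃ B, B = Algebra.norm R (AdjoinRoot.mk f p) := ⟨_, rfl⟩
  have h1 : IsSquare (A ^ x.1.val * B) := by
    apply sqR (K := K)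
    have e1 : AdjoinRoot.mk (fk K f) α * AdjoinRoot.mk (fk K f) s ^ 2 =
        AdjoinRoot.mk (fk K f) (fk K ((γ ^ 2 + C ϖ) ^ x.1.val * p)) := by
      rw [← map_pow, ← map_mul, AdjoinRoot.mk_eq_mk]
      exact hd
    have e2 : Algebra.norm K (AdjoinRoot.mk (fk K f) α) *
        Algebra.norm K (AdjoinRoot.mk (fk K f) s) ^ 2 = algebraMap R K (A ^ x.1.val * B) := by
      rw [← map_pow, ← map_mul, e1, NMU.norm_map (algebraMap R K) f _ hf, map_mul, map_pow,
        map_mul, map_pow, ← hA, ← hB]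
    rw [← e2]
    exact IsSquare.mul hN ⟨_, pow_two _⟩
  rw [← hB]
  rcases Nat.lt_or_ge x.1.val 1 with h | h
  · have h2 : x.1.val = 0 := by omega
    rw [h2, pow_zero, one_mul] at h1
    exact h1.map _
  · have h2 : x.1.val = 1 := by
      have := x.1.val_lt
      omega
    rw [h2, pow_one] at h1
    have h3 := norm_h hHENK P c ϖ γ f g hg hf hfd hϖ hγ hz
    rw [← hA] at h3
    obtain ⟨m, hm, hm2⟩ := div_pi P hϖ hϖ2 (2 * g)
    obtain ⟨z, hz1, hz2⟩ := hm2 _ h3
    obtain ⟨r, hr⟩ := h1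
    have hϖ0 : ϖ ≠ 0 := by
      rintro rfl
      exact hϖ2 (zero_mem _)
    have hϖK : algebraMap R K ϖ ≠ 0 := by
      rw [Ne, IsFractionRing.to_map_eq_zero_iff]
      exact hϖ0
    have h4 : IsSquare (m * (m * γ.eval c ^ 2 + z) * B) := by
      apply sqR (K := K)
      refine ⟨algebraMap R K (m * r) / algebraMap R K ϖ ^ g, ?_⟩
      have h5 : m * A = ϖ ^ (2 * g) * (m * γ.eval c ^ 2 + z) := by
        linear_combination -hz2
      have h6 : algebraMap R K (m * (m * γ.eval c ^ 2 + z) * B) * (algebraMap R K ϖ ^ g) ^ 2 =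
          algebraMap R K (m * r) ^ 2 := by
        rw [← map_pow, ← map_pow, ← map_pow, ← map_mul]
        congr 1
        have h7 : (ϖ ^ g) ^ 2 = ϖ ^ (2 * g) := by rw [← pow_mul, mul_comm g 2]
        rw [h7]
        linear_combination (-m * B) * h5 + m ^ 2 * hr
      rw [div_mul_div_comm, eq_div_iff (mul_ne_zero (pow_ne_zero _ hϖK) (pow_ne_zero _ hϖK)),
        ← pow_two, h6, pow_two]
    have h8 := h4.map (Ideal.Quotient.mk P.asIdeal)
    obtain ⟨w, hw⟩ := h8
    have hzz : Ideal.Quotient.mk P.asIdeal z = 0 := Ideal.Quotient.eq_zero_iff_mem.2 hz1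
    have hγc : Ideal.Quotient.mk P.asIdeal (γ.eval c) ≠ 0 := by
      rw [Ne, Ideal.Quotient.eq_zero_iff_mem]
      exact gam_ne P c γ g hg hγ
    have hm0 : Ideal.Quotient.mk P.asIdeal m ≠ 0 := by
      rw [Ne, Ideal.Quotient.eq_zero_iff_mem]
      exact hm
    rw [map_mul, map_mul, map_add, map_mul, map_pow, hzz, add_zero] at hw
    refine ⟨w / (Ideal.Quotient.mk P.asIdeal m * Ideal.Quotient.mk P.asIdeal (γ.eval c)), ?_⟩
    field_simp
    linear_combination hw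

end ded

theorem sq_iff {k : Type} [Field k] {a b : k} (ha : a ≠ 0) (hb : b ≠ 0) (h : IsSquare (a * b)) :
    IsSquare a ↔ IsSquare b := by
  obtain ⟨r, hr⟩ := h
  constructor
  · rintro ⟨t, rfl⟩
    have ht : t ≠ 0 := by
      rintro rfl
      exact ha (by ring)
    refine ⟨r / t, ?_⟩
    field_simp
    linear_combination hr
  · rintro ⟨t, rfl⟩
    have ht : t ≠ 0 := by
      rintro rfl
      exact hb (by ring)
    refine ⟨r / t, ?_⟩
    field_simp
    linear_combination hr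

/-- Finite fields. -/
theorem ff {k : Type} [Field k] [Finite k] (h2 : (2 : k) ≠ 0) (γ p : k[X]) (hγ : γ.Monic)
    (hi : Irreducible γ) (hp : IsCoprime p γ) :
    IsSquare (Algebra.norm k (AdjoinRoot.mk γ p)) ↔ ∃ s : k[X], γ ∣ p - s ^ 2 := by
  constructor
  · exact UNR.fin_sq h2 γ p hγ hi hp
  · rintro ⟨s, hs⟩
    rw [AdjoinRoot.mk_eq_mk.2 hs, map_pow, map_pow]
    exact ⟨_, pow_two _⟩

end Nrm91

open Nrm91 in
/-- NRMK. -/
theorem nrmk (hHENK : HENKStmt) : NRMKStmt := by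
  intro R _ _ K _ _ _ P h2 hfin ϖ c γ f g α hg hf hfd hϖ hϖ2 hγ hz hα hN x s p hs hd hp
  have hPm : P.asIdeal.IsMaximal := P.isMaximal
  letI := Ideal.Quotient.field P.asIdeal
  have hk := key hHENK P ϖ c γ f g α hg hf hfd hϖ hϖ2 hγ hz hN x s p hd
  have h2k : (2 : R ⧸ P.asIdeal) ≠ 0 := by
    intro h
    apply h2
    rw [← Ideal.Quotient.eq_zero_iff_mem, map_ofNat]
    exact h
  have hfm : md P.asIdeal f = (X - C (Ideal.Quotient.mk P.asIdeal c)) * md P.asIdeal γ := by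
    have := (zer_map _ _).1 hz
    rw [Polynomial.map_sub, sub_eq_zero, Polynomial.map_mul, Polynomial.map_sub, map_X,
      map_C] at this
    exact this
  have hγm : (md P.asIdeal γ).Monic := hγ.1.map _
  have hpγ : IsCoprime (md P.asIdeal p) (md P.asIdeal γ) := by
    rw [hfm] at hp
    exact hp.of_mul_right_right
  have hpc0 : Ideal.Quotient.mk P.asIdeal (p.eval c) ≠ 0 := by
    rw [hfm] at hp
    obtain ⟨a, b, hab⟩ := hp.of_mul_right_left
    intro h0
    have := congrArg (eval (Ideal.Quotient.mk P.asIdeal c)) hab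
    rw [eval_add, eval_mul, eval_mul, eval_map, eval₂_at_apply, h0] at this
    simp at this
  have hγc : Ideal.Quotient.mk P.asIdeal (γ.eval c) ≠ 0 := by
    rw [Ne, Ideal.Quotient.eq_zero_iff_mem]
    exact gam_ne P c γ g hg hγ
  obtain ⟨n, hn⟩ : ∃ n, n = Algebra.norm (R ⧸ P.asIdeal)
    (AdjoinRoot.mk (md P.asIdeal γ) (md P.asIdeal p)) := ⟨_, rfl⟩
  have hn0 : n ≠ 0 := hn ▸ UNR.norm_ne _ _ hγm hγ.2.2 hpγ
  have hk2 : IsSquare (Ideal.Quotient.mk P.asIdeal (p.eval c) * n) := by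
    have e1 := norm_congr P.asIdeal P.isPrime.ne_top f ((X - C c) * γ) p hf
      ((monic_X_sub_C c).mul hγ.1) hz
    rw [norm_fac c γ _ hγ.1, ← Ideal.Quotient.eq_zero_iff_mem, map_sub, sub_eq_zero, map_mul] at e1
    have e2 := NMU.norm_map (Ideal.Quotient.mk P.asIdeal) γ p hγ.1
    rw [hn, e2, ← e1]
    exact hk
  have hI := sq_iff hpc0 hn0 hk2
  refine ⟨?_, ?_⟩
  · rw [hI, hn]
    exact ff h2k _ _ hγm hγ.2.2 hpγ
  · have hmain : ∀ w : R, w ∉ P.asIdeal →
        ((∃ q : (R ⧸ P.asIdeal)[X], md P.asIdeal γ ∣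
          md P.asIdeal (-(C w * p * (X - C c))) - q ^ 2) ↔
        IsSquare (Ideal.Quotient.mk P.asIdeal (p.eval c * γ.eval c))) := by
      intro w hw
      have hw0 : Ideal.Quotient.mk P.asIdeal w ≠ 0 := by
        rw [Ne, Ideal.Quotient.eq_zero_iff_mem]
        exact hw
      have e1 : md P.asIdeal (-(C w * p * (X - C c))) =
          C (Ideal.Quotient.mk P.asIdeal w) * md P.asIdeal p *
            (C (Ideal.Quotient.mk P.asIdeal c) - X) := by
        change Polynomial.map (Ideal.Quotient.mk P.asIdeal) (-(C w * p * (X - C c))) = _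
        rw [Polynomial.map_neg, Polynomial.map_mul, Polynomial.map_mul, Polynomial.map_sub, map_X,
          map_C, map_C]
        ring
      have e2 : Algebra.norm (R ⧸ P.asIdeal) (AdjoinRoot.mk (md P.asIdeal γ)
          (md P.asIdeal (-(C w * p * (X - C c))))) =
          (Ideal.Quotient.mk P.asIdeal w ^ g) ^ 2 *
            (n * Ideal.Quotient.mk P.asIdeal (γ.eval c)) := by
        rw [e1, map_mul, map_mul, map_mul, map_mul, NMU.norm_C _ _ hγm, NMU.norm_sub _ hγm, ← hn,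
          hγ.1.natDegree_map, hγ.2.1, eval_map, eval₂_at_apply]
        ring
      have e3 : IsCoprime (md P.asIdeal (-(C w * p * (X - C c)))) (md P.asIdeal γ) := by
        have e4 : IsCoprime (C (Ideal.Quotient.mk P.asIdeal w)) (md P.asIdeal γ) :=
          ⟨C (Ideal.Quotient.mk P.asIdeal w)⁻¹, 0, by
            rw [zero_mul, add_zero, ← C_mul, inv_mul_cancel₀ hw0, C_1]⟩
        have e5 : IsCoprime (X - C (Ideal.Quotient.mk P.asIdeal c)) (md P.asIdeal γ) := by
          refine (Irreducible.coprime_iff_not_dvd (irreducible_X_sub_C _)).2 ?_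
          rw [dvd_iff_isRoot, IsRoot.def, eval_map, eval₂_at_apply]
          exact hγc
        have e6 : IsCoprime (C (Ideal.Quotient.mk P.asIdeal c) - X) (md P.asIdeal γ) := by
          rw [← neg_sub]
          exact e5.neg_left
        rw [e1]
        exact (e4.mul_left hpγ).mul_left e6
      rw [← ff h2k _ _ hγm hγ.2.2 e3, e2]
      have e6 : IsSquare ((Ideal.Quotient.mk P.asIdeal w ^ g) ^ 2 *
            (n * Ideal.Quotient.mk P.asIdeal (γ.eval c))) ↔
          IsSquare (n * Ideal.Quotient.mk P.asIdeal (γ.eval c)) := by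
        constructor
        · rintro ⟨r, hr⟩
          refine ⟨r / Ideal.Quotient.mk P.asIdeal w ^ g, ?_⟩
          field_simp
          linear_combination hr
        · rintro ⟨r, hr⟩
          exact ⟨Ideal.Quotient.mk P.asIdeal w ^ g * r, by rw [hr]; ring⟩
      rw [e6, map_mul]
      apply sq_iff (mul_ne_zero hn0 hγc) (mul_ne_zero hpc0 hγc)
      obtain ⟨r, hr⟩ := hk2
      refine ⟨r * Ideal.Quotient.mk P.asIdeal (γ.eval c), ?_⟩
      linear_combination ((Ideal.Quotient.mk P.asIdeal (γ.eval c)) ^ 2) * hr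
    constructor
    · intro h w hw
      exact (hmain w hw).2 h
    · intro h
      have h1 : (1 : R) ∉ P.asIdeal := fun h => P.isPrime.ne_top ((Ideal.eq_top_iff_one _).2 h)
      exact (hmain 1 h1).1 (h 1 h1)

end Pool.PRK
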