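import Pool.Agent.H5.PRK.S3

/-!
# PRK, module DEDB: a Noetherian domain with invertible maximal ideals is integrally closed
-/

set_option autoImplicit false

namespace Pool.PRK

open Polynomial

/-- DEDB. -/
theorem dedb : DEDBStmt := by
  intro B L _ _ _ _ _ _ hM x hx
  obtain ⟨φ, hφd⟩ : ∃ φ, φ = algebraMap B L := ⟨_, rfl⟩
  have hφ : Function.Injective φ := hφd ▸ IsFractionRing.injective B L
  obtain ⟨A, hA⟩ : ∃ A, A = Algebra.adjoin B {x} := ⟨_, rfl⟩
  have hxA : x ∈ A := by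
    rw [hA]; exact Algebra.self_mem_adjoin_singleton B x
  let 𝔠 : Ideal B :=
    { carrier := {b | ∀ y ∈ A, ∃ c : B, φ c = φ b * y}
      add_mem' := by
        intro b b' hb hb' y hy
        obtain ⟨c, hc⟩ := hb y hy
        obtain ⟨c', hc'⟩ := hb' y hy
        exact ⟨c + c', by rw [map_add, hc, hc', map_add]; ring⟩
      zero_mem' := fun y _ => ⟨0, by rw [map_zero, zero_mul]⟩
      smul_mem' := by
        intro r b hb y hy
        obtain ⟨c, hc⟩ := hb y hy
        exact ⟨r * c, by rw [smul_eq_mul, map_mul, map_mul, hc]; ring⟩ }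
  have hc_mem : ∀ b, b ∈ 𝔠 ↔ ∀ y ∈ A, ∃ c : B, φ c = φ b * y := fun b => Iff.rfl
  have hc0 : 𝔠 ≠ ⊥ := by
    have h1 : (Subalgebra.toSubmodule (Algebra.adjoin B {x})).FG := hx.fg_adjoin_singleton
    obtain ⟨S, hS⟩ := h1
    obtain ⟨b, hb⟩ := IsLocalization.exist_integer_multiples_of_finset (nonZeroDivisors B) S
    intro h
    have h2 : (b : B) ∈ 𝔠 := by
      rw [hc_mem]
      intro y hy
      rw [hA, ← Subalgebra.mem_toSubmodule, ← hS] at hy
      induction hy using Submodule.span_induction with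
      | mem y hy =>
        obtain ⟨c, hc⟩ := hb y hy
        refine ⟨c, ?_⟩
        rw [hφd, hc, Algebra.smul_def]
      | zero => exact ⟨0, by rw [map_zero, mul_zero]⟩
      | add y z _ _ hy hz =>
        obtain ⟨c, hc⟩ := hy
        obtain ⟨c', hc'⟩ := hz
        exact ⟨c + c', by rw [map_add, hc, hc']; ring⟩
      | smul r y _ hy =>
        obtain ⟨c, hc⟩ := hy
        refine ⟨r * c, ?_⟩
        rw [map_mul, hc, Algebra.smul_def, ← hφd]
        ring
    rw [h, Ideal.mem_bot] at h2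
    exact nonZeroDivisors.coe_ne_zero b h2
  rw [← hφd]
  by_contra hcon
  have hct : 𝔠 ≠ ⊤ := by
    intro h
    have h1 : (1 : B) ∈ 𝔠 := by rw [h]; exact Submodule.mem_top
    obtain ⟨c, hc⟩ := (hc_mem 1).1 h1 x hxA
    exact hcon ⟨c, by rw [hc, map_one, one_mul]⟩
  obtain ⟨M, hMm, hcM⟩ := Ideal.exists_le_maximal 𝔠 hct
  have hM0 : M ≠ ⊥ := by
    rintro rfl
    exact hc0 (le_bot_iff.1 hcM)
  obtain ⟨N, a, ha, hMN⟩ := hM M hMm hM0
  have hst : ∀ b ∈ 𝔠, ∀ y ∈ A, ∀ c, φ c = φ b * y → c ∈ 𝔠 := by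
    intro b hb y hy c hc
    rw [hc_mem]
    intro z hz
    rw [hc, mul_assoc]
    exact (hc_mem b).1 hb _ (A.mul_mem hy hz)
  have hz : ∀ z : L, (∀ m ∈ M, ∃ m' ∈ M, φ m' = φ m * z) → ∃ c : B, φ c = z := by
    intro z hz
    have h1 : ∀ t ∈ M * N, ∃ t' ∈ M * N, φ t' = φ t * z := by
      intro t ht
      induction ht using Submodule.mul_induction_on' with
      | mem_mul_mem m hm n hn =>
        obtain ⟨m', hm', e⟩ := hz m hm
        exact ⟨m' * n, Ideal.mul_mem_mul hm' hn, by rw [map_mul, e, map_mul]; ring⟩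
      | add t _ u _ ht hu =>
        obtain ⟨t', ht', e⟩ := ht
        obtain ⟨u', hu', e'⟩ := hu
        exact ⟨t' + u', add_mem ht' hu', by rw [map_add, e, e', map_add]; ring⟩
    obtain ⟨t', ht', e⟩ := h1 a (by rw [hMN]; exact Ideal.mem_span_singleton_self a)
    rw [hMN] at ht'
    obtain ⟨c, rfl⟩ := Ideal.mem_span_singleton.1 ht'
    refine ⟨c, ?_⟩
    rw [map_mul] at e
    exact mul_left_cancel₀ (fun h => ha (hφ (by rw [h, map_zero]))) e
  have e1 : N * 𝔠 ≤ Ideal.span {a} * 𝔠 := by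
    intro u hu
    have hu1 : u ∈ Ideal.span {a} := by
      rw [← hMN]
      have h2 : N * 𝔠 ≤ M * N := by
        rw [mul_comm N 𝔠]
        exact Ideal.mul_mono hcM le_rfl
      exact h2 hu
    obtain ⟨u', rfl⟩ := Ideal.mem_span_singleton.1 hu1
    rw [Ideal.mem_span_singleton_mul]
    refine ⟨u', ?_, rfl⟩
    rw [hc_mem]
    intro y hy
    apply hz
    intro m hm
    have h2 : m * (a * u') ∈ Ideal.span {a} * 𝔠 := by
      rw [← hMN, mul_assoc]
      exact Ideal.mul_mem_mul hm hu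
    obtain ⟨c', hc', hc2⟩ := Ideal.mem_span_singleton_mul.1 h2
    have h3 : c' = m * u' := mul_left_cancel₀ ha (by rw [hc2]; ring)
    obtain ⟨c'', hc''⟩ := (hc_mem c').1 hc' y hy
    refine ⟨c'', hcM (hst c' hc' y hy c'' hc''), ?_⟩
    rw [hc'', h3, map_mul]
    ring
  have e2 : 𝔠 ≤ M • 𝔠 := by
    intro b hb
    have h1 : a * b ∈ Ideal.span {a} * (M * 𝔠) := by
      have h2 : a * b ∈ Ideal.span {a} * 𝔠 := Ideal.mem_span_singleton_mul.2 ⟨b, hb, rfl⟩
      rw [← hMN, mul_assoc] at h2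
      have h3 := Ideal.mul_mono (le_refl M) e1 h2
      rwa [← mul_assoc, mul_comm M, mul_assoc] at h3
    obtain ⟨w, hw, hw2⟩ := Ideal.mem_span_singleton_mul.1 h1
    rw [← mul_left_cancel₀ ha hw2]
    exact hw
  obtain ⟨r, hr1, hr2⟩ :=
    Submodule.exists_sub_one_mem_and_smul_eq_zero_of_fg_of_le_smul M 𝔠 (IsNoetherian.noetherian _) e2
  obtain ⟨b, hb, hb0⟩ := Submodule.exists_mem_ne_zero_of_ne_bot hc0
  have h4 := hr2 b hb
  rw [smul_eq_mul, mul_eq_zero] at h4
  rcases h4 with h4 | h4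
  · rw [h4, zero_sub] at hr1
    exact hMm.ne_top ((Ideal.eq_top_iff_one _).2 (neg_mem_iff.1 hr1))
  · exact hb0 h4

end Pool.PRK
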